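import Pool.Agent.H65.INS.PDCore
import Pool.Agent.H65.INS.PDInv

/-!
# Dehn functions of finitely presented subgroups of hyperbolic groups

The result of project PD (see `Pool/Agent/S02101.lean`) with the definitions of the problem file:
words, area, Dehn function, finitely presented subgroup, for all finite presentations of the
subgroup.
-/

set_option autoImplicit false

namespace Pool.Agent.Results.MP_822040_al.PolynomialDehn

/-- the element of the free group given by the word `w` in the letters and their inverses lies in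
the normal closure of `R`: the word `w` represents the identity in `⟨A | R⟩` -/
def Trivial {k : ℕ} (R : Finset (FreeGroup (Fin k))) (w : List (Fin k × Bool)) : Prop :=
  FreeGroup.mk w ∈ Subgroup.normalClosure (R : Set (FreeGroup (Fin k)))

/-- the least number of conjugates of relators or inverse relators whose product freely equals `w` -/
noncomputable def area {k : ℕ} (R : Finset (FreeGroup (Fin k))) (w : List (Fin k × Bool)) : ℕ :=
  sInf {N | ∃ L : List (FreeGroup (Fin k) × FreeGroup (Fin k)), L.length = N ∧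
    (∀ p ∈ L, p.2 ∈ R ∨ p.2⁻¹ ∈ R) ∧ (L.map fun p => p.1 * p.2 * p.1⁻¹).prod = FreeGroup.mk w}

/-- the Dehn function: the largest area of a word of length at most `n` representing the identity -/
noncomputable def dehn {k : ℕ} (R : Finset (FreeGroup (Fin k))) (n : ℕ) : ℕ :=
  sSup {N | ∃ w : List (Fin k × Bool), w.length ≤ n ∧ Trivial R w ∧ N = area R w}

/-- `⟨x_1, .., x_k | R⟩`, `x_i ↦ f x_i`, is a finite presentation of `H` -/
def Presents {H : Type} [Group H] {k : ℕ} (f : FreeGroup (Fin k) →* H)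
    (R : Finset (FreeGroup (Fin k))) : Prop :=
  Function.Surjective f ∧ f.ker = Subgroup.normalClosure (R : Set (FreeGroup (Fin k)))

/-- `f ≼ g` -/
def Preceq (f g : ℕ → ℕ) : Prop :=
  ∃ C : ℕ, 0 < C ∧ ∀ n, f n ≤ C * g (C * n + C) + C * n + C

/-- hyperbolic groups: finitely presented with a Dehn function bounded by a linear function -/
def Hyperbolic (G : Type) [Group G] : Prop :=
  ∃ (k : ℕ) (f : FreeGroup (Fin k) →* G) (R : Finset (FreeGroup (Fin k))), Presents f R ∧
    ∃ K : ℕ, ∀ n, dehn R n ≤ K * n + K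

/-- a finite presentation exists -/
def FinitelyPresented (H : Type) [Group H] : Prop :=
  ∃ (k : ℕ) (f : FreeGroup (Fin k) →* H) (R : Finset (FreeGroup (Fin k))), Presents f R

open Pool.Agent.H65.INS

theorem area_set {k : ℕ} {R : Finset (FreeGroup (Fin k))} {w : List (Fin k × Bool)}
    (h : Trivial R w) : ∃ L : List (FreeGroup (Fin k) × FreeGroup (Fin k)), L.length = area R w ∧
    (∀ p ∈ L, p.2 ∈ R ∨ p.2⁻¹ ∈ R) ∧ (L.map fun p => p.1 * p.2 * p.1⁻¹).prod = FreeGroup.mk w := by
  obtain ⟨N, L, -, h2, h3⟩ := AR.of_mem h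
  exact Nat.sInf_mem (s := {N | ∃ L : List (FreeGroup (Fin k) × FreeGroup (Fin k)), L.length = N ∧
    (∀ p ∈ L, p.2 ∈ R ∨ p.2⁻¹ ∈ R) ∧ (L.map fun p => p.1 * p.2 * p.1⁻¹).prod = FreeGroup.mk w})
    ⟨L.length, L, rfl, h2, h3⟩

theorem area_le {k : ℕ} {R : Finset (FreeGroup (Fin k))} {w : List (Fin k × Bool)}
    (L : List (FreeGroup (Fin k) × FreeGroup (Fin k))) (h2 : ∀ p ∈ L, p.2 ∈ R ∨ p.2⁻¹ ∈ R)
    (h3 : (L.map fun p => p.1 * p.2 * p.1⁻¹).prod = FreeGroup.mk w) : area R w ≤ L.length :=
  Nat.sInf_le ⟨L, rfl, h2, h3⟩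

theorem dehn_bdd {k : ℕ} (R : Finset (FreeGroup (Fin k))) (n : ℕ) :
    BddAbove {N | ∃ w : List (Fin k × Bool), w.length ≤ n ∧ Trivial R w ∧ N = area R w} := by
  apply Set.Finite.bddAbove
  refine ((List.finite_length_le (Fin k × Bool) n).image (area R)).subset ?_
  rintro N ⟨w, hw, -, rfl⟩
  exact ⟨w, hw, rfl⟩

theorem area_le_dehn {k : ℕ} {R : Finset (FreeGroup (Fin k))} {n : ℕ} {w : List (Fin k × Bool)}
    (hn : w.length ≤ n) (h : Trivial R w) : area R w ≤ dehn R n :=
  le_csSup (dehn_bdd R n) ⟨w, hn, h, rfl⟩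

theorem dehn_le {k : ℕ} {R : Finset (FreeGroup (Fin k))} {n M : ℕ}
    (h : ∀ w : List (Fin k × Bool), w.length ≤ n → Trivial R w → area R w ≤ M) : dehn R n ≤ M := by
  refine csSup_le ⟨area R [], [], Nat.zero_le _, ?_, rfl⟩ ?_
  · exact one_mem _
  · rintro N ⟨w, hw, hT, rfl⟩
    exact h w hw hT

theorem result : ∀ d : ℕ, ∃ (G : Type) (_ : Group G), Hyperbolic G ∧
    ∃ H : Subgroup G, FinitelyPresented H ∧
      ∀ (m : ℕ) (f : FreeGroup (Fin m) →* H) (R : Finset (FreeGroup (Fin m))), Presents f R →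
        Preceq (fun n => n ^ d) (dehn R) := by
  intro d
  obtain ⟨k, R, ⟨K, hK⟩, m, g, R', hker, C, hC⟩ := pd_core d
  refine ⟨PresentedGroup (R : Set (FreeGroup (Fin k))), inferInstance, ?_,
    (FreeGroup.lift g).range, ?_, ?_⟩
  · refine ⟨k, PresentedGroup.mk (R : Set (FreeGroup (Fin k))), R,
      ⟨PresentedGroup.mk_surjective _, ?_⟩, K, fun n => dehn_le fun w hw hT => ?_⟩
    · exact QuotientGroup.ker_mk' _
    · obtain ⟨L, h1, h2, h3⟩ := hK _ hT
      refine (area_le L h1 h2).trans (h3.trans ?_)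
      have h4 : (FreeGroup.mk w).toWord.length ≤ w.length := FreeGroup.norm_mk_le
      exact Nat.add_le_add_right (Nat.mul_le_mul_left _ (h4.trans hw)) _
  · refine ⟨m, (FreeGroup.lift g).rangeRestrict, R', MonoidHom.rangeRestrict_surjective _, ?_⟩
    rw [MonoidHom.ker_rangeRestrict, hker]
  · rintro m₂ f S ⟨hf1, hf2⟩
    obtain ⟨c, hc⟩ := change (FreeGroup.lift g).rangeRestrict f
      (MonoidHom.rangeRestrict_surjective _) hf1 R' S
      (by rw [MonoidHom.ker_rangeRestrict, hker]) hf2
    obtain ⟨B, hB⟩ : ∃ B : ℕ, B = C * c + C * c * C + C + c * C + 1 := ⟨_, rfl⟩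
    refine ⟨B, by omega, fun n => ?_⟩
    obtain ⟨w, hw, hwn, hL⟩ := hC n
    obtain ⟨v, hv, hvn, hN⟩ := hc w hw
    have hwn' : w.norm ≤ C * n + C := hwn
    have hT : Trivial S v.toWord := by
      unfold Trivial
      rwa [FreeGroup.mk_toWord]
    obtain ⟨L, h1, h2, h3⟩ := area_set hT
    rw [FreeGroup.mk_toWord] at h3
    obtain ⟨L', h1', h2', h3'⟩ := hN (area S v.toWord) ⟨L, h1.le, h2, h3⟩
    have h4 := hL L' h2' h3'
    have h5 : area S v.toWord ≤ dehn S (B * n + B) := by
      apply area_le_dehn _ hT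
      have h6 : v.toWord.length ≤ c * w.norm := hvn
      calc v.toWord.length ≤ c * w.norm := h6
        _ ≤ c * (C * n + C) := Nat.mul_le_mul_left _ hwn'
        _ = (c * C) * n + c * C := by ring
        _ ≤ B * n + B := by
            have : c * C ≤ B := by omega
            gcongr
    have h7 : L'.length ≤ c * dehn S (B * n + B) + c * (C * n + C) :=
      h1'.trans (Nat.add_le_add (Nat.mul_le_mul_left _ h5) (Nat.mul_le_mul_left _ hwn'))
    calc n ^ d ≤ C * L'.length + C * n + C := h4
      _ ≤ C * (c * dehn S (B * n + B) + c * (C * n + C)) + C * n + C := by gcongr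
      _ = (C * c) * dehn S (B * n + B) + (C * c * C + C) * n + (C * c * C + C) := by ring
      _ ≤ B * dehn S (B * n + B) + B * n + B := by
          have e1 : C * c ≤ B := by omega
          have e2 : C * c * C + C ≤ B := by omega
          gcongr

end Pool.Agent.Results.MP_822040_al.PolynomialDehn
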